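import Pool.Agent.Lib.MP_db3298_pr.Examples

/-!
Both parts of the conjecture for one and the same tie-breaking rule, always left
(`side = true`) or always right (`side = false`): stability depends on the initial state, and,
from the empty state, on more than the means of the service times.
-/

set_option autoImplicit false

open MeasureTheory Pool.Agent.Lib.MP_db3298_pr

namespace Pool.Agent.Results.MP_db3298_pr.BothParts

theorem result : ∀ side : Bool,
    (∃ (lam : ℝ) (Fl Fr : Measure ℝ) (w w' : Fin 3 → ℝ),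
      0 < lam ∧ ServiceLaw Fl ∧ ServiceLaw Fr ∧ (∀ i, 0 ≤ w i) ∧ (∀ i, 0 ≤ w' i) ∧
      StableFrom lam Fl Fr (fun _ _ _ => side) w ∧
      ¬ StableFrom lam Fl Fr (fun _ _ _ => side) w') ∧
    (∃ (lam : ℝ) (Fl Fr Fl' Fr' : Measure ℝ),
      0 < lam ∧ ServiceLaw Fl ∧ ServiceLaw Fr ∧ ServiceLaw Fl' ∧ ServiceLaw Fr' ∧
      ∫ x, x ∂Fl = ∫ x, x ∂Fl' ∧ ∫ x, x ∂Fr = ∫ x, x ∂Fr' ∧
      StableFrom lam Fl Fr (fun _ _ _ => side) (fun _ => 0) ∧
      ¬ StableFrom lam Fl' Fr' (fun _ _ _ => side) (fun _ => 0)) := by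
  intro side
  refine ⟨?_, 79 / 80, Measure.dirac 2, mixLaw, Measure.dirac 2, Measure.dirac 4, by norm_num,
    serviceLaw_dirac two_pos, serviceLaw_mix, serviceLaw_dirac two_pos,
    serviceLaw_dirac (by norm_num), rfl, by rw [mean_mix]; simp,
    stable_mix (tieMeas_const _), unstable_24 (tieMeas_const _)⟩
  cases side
  · obtain ⟨L, hL, h⟩ := unstable_diag (a := 1) (b := 2) one_pos two_pos (by norm_num) le_rfl
      false chk_U12
    exact ⟨19 / 10, Measure.dirac 1, Measure.dirac 2, 0, fun _ => L, by norm_num,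
      serviceLaw_dirac one_pos, serviceLaw_dirac two_pos, fun _ => le_rfl, fun _ => hL.le,
      stable_12 (tieMeas_const _), by simpa using h⟩
  · obtain ⟨L, hL, h⟩ := unstable_diag (a := 2) (b := 1) two_pos one_pos le_rfl (by norm_num)
      true chk_U21
    exact ⟨19 / 10, Measure.dirac 2, Measure.dirac 1, 0, fun _ => L, by norm_num,
      serviceLaw_dirac two_pos, serviceLaw_dirac one_pos, fun _ => le_rfl, fun _ => hL.le,
      stable_21 (tieMeas_const _), by simpa using h⟩

end Pool.Agent.Results.MP_db3298_pr.BothParts
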