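import Pool.Agent.Lib.MP_db3298_pr.NMh

/-!
If at least one of the two service laws is not singular with respect to Lebesgue measure, then
stability does not depend on the initial vector, for every measurable tie-breaking rule.
-/

set_option autoImplicit false

open MeasureTheory Pool.Agent.Lib.MP_db3298_pr

namespace Pool.Agent.Results.MP_db3298_pr.NonSingular

theorem result : ∀ (lam : ℝ) (Fl Fr : Measure ℝ) (tie : Fin 3 → (Fin 3 → ℝ) → ℝ → Bool),
    0 < lam → ServiceLaw Fl → ServiceLaw Fr →
    (∀ c, Measurable (fun p : (Fin 3 → ℝ) × ℝ => tie c p.1 p.2)) →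
    (¬ Fl.MutuallySingular volume ∨ ¬ Fr.MutuallySingular volume) →
    ∀ w w' : Fin 3 → ℝ, (∀ i, 0 ≤ w i) → (∀ i, 0 ≤ w' i) →
      StableFrom lam Fl Fr tie w → StableFrom lam Fl Fr tie w' := by
  intro lam Fl Fr tie hlam hl hr ht hns w w' _ _ hw
  have := hl.1
  have := hr.1
  rw [stableFrom_iff lam hlam Fl Fr tie ht] at hw ⊢
  exact Model.stable_of_qq _ hw
    (all_zero hlam ht hl.pos hr.pos hl.2.2 hr.2.2 (Model.qq0_of_stable _ hw) hns w')

end Pool.Agent.Results.MP_db3298_pr.NonSingular
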