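import Pool.Agent.Lib.MP_db3298_pr.NMh

/-!
For all service laws and every measurable tie-breaking rule: if the system is stable from one
initial vector, it is stable from all initial vectors whose pair of workload differences lies
outside a Lebesgue null set of the plane.
-/

set_option autoImplicit false

open MeasureTheory Pool.Agent.Lib.MP_db3298_pr

namespace Pool.Agent.Results.MP_db3298_pr.NullStarts

theorem result : ∀ (lam : ℝ) (Fl Fr : Measure ℝ) (tie : Fin 3 → (Fin 3 → ℝ) → ℝ → Bool),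
    0 < lam → ServiceLaw Fl → ServiceLaw Fr →
    (∀ c, Measurable (fun p : (Fin 3 → ℝ) × ℝ => tie c p.1 p.2)) →
    ∀ w : Fin 3 → ℝ, (∀ i, 0 ≤ w i) → StableFrom lam Fl Fr tie w →
      ∀ᵐ p ∂(volume : Measure (ℝ × ℝ)), ∀ w' : Fin 3 → ℝ, (∀ i, 0 ≤ w' i) →
        w' 1 - w' 0 = p.1 → w' 2 - w' 0 = p.2 → StableFrom lam Fl Fr tie w' := by
  intro lam Fl Fr tie hlam hl hr ht w _ hw
  have := hl.1
  have := hr.1
  rw [stableFrom_iff lam hlam Fl Fr tie ht] at hw
  obtain ⟨S, hS, h⟩ := gd_zero hlam ht hl.pos hr.pos hl.2.2 hr.2.2 (Model.qq0_of_stable _ hw)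
  have h1 : ∀ᵐ p ∂(volume : Measure (ℝ × ℝ)), sg 1 2 p.1 p.2 ∈ S :=
    (Measure.ae_prod_iff_ae_ae
      (hS.meas.preimage (measurable_sg 1 2 measurable_fst measurable_snd))).2
      (hS.wt 1 2 (by decide))
  filter_upwards [h1] with p hp w' h0 e1 e2
  have h2 := h _ (hS.inv _ hp (w' 0))
  have e : drain (sh (sg 1 2 p.1 p.2) (w' 0)) 0 = w' := by
    funext l
    fin_cases l
    · simpa [drain, sh, sg] using h0 0
    · simpa [drain, sh, sg, ← e1] using h0 1
    · simpa [drain, sh, sg, ← e2] using h0 2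
  rw [e] at h2
  exact (stableFrom_iff lam hlam Fl Fr tie ht w').2 (Model.stable_of_qq _ hw h2)

end Pool.Agent.Results.MP_db3298_pr.NullStarts
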