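import Pool.Agent.Lib.MP_db3298_pr.Examples

/-!
Q2: stability from the empty state depends on more than the means of the service times, for
every measurable (possibly state dependent and randomised) tie-breaking rule.
-/

set_option autoImplicit false

open MeasureTheory Pool.Agent.Lib.MP_db3298_pr

namespace Pool.Agent.Results.MP_db3298_pr.ServiceShape

theorem result : ∃ (lam : ℝ) (Fl Fr Fl' Fr' : Measure ℝ),
    0 < lam ∧ ServiceLaw Fl ∧ ServiceLaw Fr ∧ ServiceLaw Fl' ∧ ServiceLaw Fr' ∧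
    ∫ x, x ∂Fl = ∫ x, x ∂Fl' ∧ ∫ x, x ∂Fr = ∫ x, x ∂Fr' ∧
    ∀ tie : Fin 3 → (Fin 3 → ℝ) → ℝ → Bool,
      (∀ c, Measurable (fun p : (Fin 3 → ℝ) × ℝ => tie c p.1 p.2)) →
      StableFrom lam Fl Fr tie (fun _ => 0) ∧ ¬ StableFrom lam Fl' Fr' tie (fun _ => 0) :=
  ⟨79 / 80, Measure.dirac 2, mixLaw, Measure.dirac 2, Measure.dirac 4, by norm_num,
    serviceLaw_dirac two_pos, serviceLaw_mix, serviceLaw_dirac two_pos,
    serviceLaw_dirac (by norm_num), rfl, by rw [mean_mix]; simp,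
    fun _ ht => ⟨stable_mix ht, unstable_24 ht⟩⟩

end Pool.Agent.Results.MP_db3298_pr.ServiceShape
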